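import Pool.Agent.Lib.MP_b5021c_nt.IfaceO4V
import Pool.Agent.Lib.MP_b5021c_nt.OF.H40.Dat
import Pool.Agent.Lib.MP_b5021c_nt.KO.H67.Nbw
import Pool.Agent.Lib.MP_b5021c_nt.KO.H42.Nbw

/-!
# Board b5, row O4_NB: `V''` has a big factor
-/

namespace Pool.Agent.B5.O1H42

open scoped LaurentPolynomial
open Polynomial
open Pool.Agent.B5
open Pool.Agent.B5.Nr.Sch (Loc)
open Pool.Agent.B5.OOne

/-- The one-variable data at the load of type B of `S0`. -/
theorem ivd_of {P L : Type} [Fintype P] [DecidableEq P] [AddCommGroup L] [Module.Free ℤ L]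
    [Module.Finite ℤ L] {phi : L →+ (P → ℤ)} {D : AO ℤ L} {q f E : ℤ[X]} {a p : ℝ} {j : ℕ}
    {eta : L → (RO ℤ)ˣ} {g : ℕ} {C : Set L} {S0 S1 : L} {e0 e1 : (RO ℤ)ˣ} {i0 : P}
    {h0 : co phi i0 S0 = 1} {T : Ker (co phi i0)} {x : ℝ}
    (h : KvB phi D q f E a p j eta g C S0 S1 e0 e1 i0 h0 T x) : IvD q f E a p j := by
  refine ⟨h.k.o, h.k.eq, h.n, h.k.ez, fun z hz => ?_⟩
  have h1 := h.rn.loc.le z hz
  simpa using h1

/-- **Row O4_NB.** -/
theorem o4nb (hNb : NbzS) : O4nbS := by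
  intro P L _ _ _ _ _ phi D q f E a p j eta g C S0 S1 e0 e1 i0 h0 T x i1 h1 c n G hK hsh hFD
  by_contra hcon
  push Not at hcon
  have hI := ivd_of hK
  have hx0 := hK.rn.loc.a0
  have hx1 := hK.rn.loc.a1
  have hj2 : 2 ≤ j := hK.k.o.j2
  have hj : (2 : ℝ) ≤ j := by exact_mod_cast hj2
  have hth := hK.th
  have hinv : (2 : ℝ) ≤ x⁻¹ := by linarith
  have hld : (ld e1 1 : RO ℤ) * (vB phi D S0 e0 i0 h0).coeff T =
      toLaurent (X * ((1 + X) * f)) := by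
    have h2 := KE.ld_S hK.rn 1
    rw [pow_one] at h2
    exact_mod_cast h2
  have hb := hNb P (Ker (co phi i0)) (phO phi S0 i0) (vB phi D S0 e0 i0 h0) T i1 (ld e1 1) h1 c n G
    x⁻¹ 0 (q + X * f) ((1 + X) * f) hFD hinv (KE.classP_q hK.rn)
    (by rw [hK.rn.D0, LaurentPolynomial.T_zero, one_mul])
    (by rw [hld, LaurentPolynomial.T_zero, one_mul]) (OF40.ldz_of hK.rn.loc)
    (fun i => by have := hcon i; exact not_lt.mpr this)
  rw [hK.rk] at hb
  have hb2 : (2 * (j : ℝ) + 1) ≤ 2 * x⁻¹ := by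
    push_cast at hb
    linarith
  have hx : x ≤ 2 / (2 * (j : ℝ) + 1) := by
    rw [le_div_iff₀ (by linarith)]
    have := mul_le_mul_of_nonneg_left hb2 hx0.le
    have e : x * (2 * x⁻¹) = 2 := by field_simp
    linarith
  have hv : (aeval x q : ℝ) + x * aeval x f = 0 := by
    obtain ⟨s, hs, -⟩ := hK.rn.loc.s
    have h2 : (aeval x (q + X * f) : ℝ) = ((q + X * f).map (Int.castRingHom ℝ)).eval x := by
      rw [eval_map]; rfl
    rw [hs, eval_mul, eval_sub, eval_X, eval_C, sub_self, zero_mul] at h2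
    simpa using h2
  rcases eq_or_lt_of_le hj2 with h3 | h3
  · have h4 := h3.symm
    obtain ⟨k, t, hk, ht, hE⟩ := hsh h4
    subst h4
    rw [hE] at hI
    refine hI.nbw2 ht hk hx0 ?_ hv
    have : (2 : ℝ) / (2 * ((2 : ℕ) : ℝ) + 1) = 2 / 5 := by norm_num
    rw [this] at hx
    exact hx
  · exact hI.nbw h3 hx0 hx hv

end Pool.Agent.B5.O1H42
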