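import Pool.Agent.Lib.MP_b5021c_nt.IfaceO4V
import Pool.Agent.Lib.MP_b5021c_nt.KO.H67.Bas
import Pool.Agent.Lib.MP_b5021c_nt.KE.H96.Fa1
import Pool.Agent.Lib.MP_b5021c_nt.KE.H96.Step
import Pool.Agent.Lib.MP_b5021c_nt.E.H78.Fcl
import Pool.Agent.Lib.MP_b5021c_nt.B.H36.Evr

/-!
# Board b5, row O4_VB: the closing `V_B` is in `DD`
-/

namespace Pool.Agent.B5.O1H42

open scoped LaurentPolynomial
open Polynomial
open Pool.Agent.B5
open Pool.Agent.B5.Nr.Sch (Loc)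
open Pool.Agent.B5.KE

/-- `(-T) (-e) = T e`. -/
theorem negT_ld (e : (RO ℤ)ˣ) : (kap⁻¹ : (RO ℤ)ˣ) * (-e) = ld e 1 := by
  rw [← kap_ld e, inv_mul_cancel_left]

theorem kapi_val : ((kap⁻¹ : (RO ℤ)ˣ) : RO ℤ) = -LaurentPolynomial.T 1 := by
  have h1 : ((kap : (RO ℤ)ˣ) : RO ℤ) * -LaurentPolynomial.T 1 = 1 := by
    rw [kap_val, neg_mul_neg, ← LaurentPolynomial.T_add, neg_add_cancel, LaurentPolynomial.T_zero]
  have h2 : ((kap : (RO ℤ)ˣ) : RO ℤ) * ((kap⁻¹ : (RO ℤ)ˣ) : RO ℤ) = 1 := by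
    rw [← Units.val_mul, mul_inv_cancel, Units.val_one]
  exact mul_left_cancel₀ (kap : (RO ℤ)ˣ).ne_zero (h2.trans h1.symm)

theorem kapi_ne : (kap⁻¹ : (RO ℤ)ˣ) ≠ 1 := by
  intro h
  exact kap_ne (inv_eq_one.mp h)

/-- The load B is not the load A. -/
theorem ld_ne_neg (e : (RO ℤ)ˣ) : ld e 1 ≠ -e := by
  intro h
  apply kapi_ne
  rw [← negT_ld e] at h
  exact mul_eq_right.mp h

/-- Rays of a unit multiple. -/
theorem ray_cst {L : Type} [AddCommGroup L] {c : RO ℤ} (hc : c ≠ 0) {G : AO ℤ L} {b : L}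
    (h : Ray G b) : Ray (cst c * G) b := by
  unfold Ray
  rw [H78.supp_cst_mul hc]
  exact h

/-- **Row O4_VB.** -/
theorem o4vb (hRk : RkS) (hClp : ClpS) (hI1 : Inj1S) (hFD : FDS) (hMug : MugS) (hSf : SfzS)
    (hE1 : E1S) (hE2 : E2S) (hMV : MVS) (hMm : MmulS) (hPc : PCZS) (hM1 : M1S) : O4vbS := by
  intro P L _ _ _ _ _ phi D q f E a p j eta g C S0 S1 e0 e1 i0 h0 T hK hn hT
  have W := hK.kc.ko
  have fp := W.min.fp
  have hD := fp.dd
  have hr0 := hK.r0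
  have hf0 := hK.o.f0
  have hj2 := W.j2
  have hray0 : Ray D S0 := hK.mt.r0
  have hfr : Dfr phi D S0 (ld e0 1) := hK.kc.kc.fr S0 hK.m0 (ld e0 1) (by
    rw [hK.t0]
    exact ld_ne_neg e0)
  have hdr := hfr i0 h0
  have hV0 : D.coeff 0 + ((ld e0 1 : (RO ℤ)ˣ) : RO ℤ) * D.coeff S0 = toLaurent (q + X * f) := by
    have h1 := V0_ld hr0 1
    rw [pow_one] at h1
    exact h1
  have cc : CC phi D S0 i0 (ld e0 1) := ⟨hD, by rw [W.rk]; omega, hray0, h0, by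
    have h1 := V0_ne hr0 (k := 1) le_rfl
    exact_mod_cast h1⟩
  obtain ⟨c, n, G, fd⟩ := hFD ℤ P L phi D S0 i0 (ld e0 1) h0 cc
  obtain ⟨hs, -⟩ := KO67.sf_B hSf W hr0 hf0 fd (Or.inl hdr)
  -- the zero of `q + z f`
  obtain ⟨b, hab, hb1, hb⟩ : ∃ b : ℝ, a < b ∧ b < 1 ∧
      ((q + X * f).map (Coef.emb : ℤ →+* ℂ)).roots.filter (fun x => ‖x‖ < 1) = {(b : ℂ)} := by
    have h1 := lob hPc hr0.loc hr0.u hr0.ne (k := 1) le_rfl
    rw [pow_one] at h1
    rcases h1 with h1 | h1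
    · exfalso
      have h2 : ClassV 1 (D.coeff 0 + ((ld e0 1 : (RO ℤ)ˣ) : RO ℤ) * D.coeff S0) := by
        refine ⟨le_refl 1, 0, q + X * f, ?_, ?_, ?_⟩
        · rw [hV0, LaurentPolynomial.T_zero, one_mul]
        · rw [coeff_add, hr0.loc.q0, coeff_X_mul_zero, add_zero, map_one, norm_one]
        · intro z hz
          rw [ev_map]
          exact h1 z hz
      have h3 := ((hMV ℤ).1 _ _ h2).2
      have hx : ∀ i, (G i).coeff 0 ≠ 0 := fun i => (fd.st i).1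
      obtain ⟨l⟩ := fac_ex fd (by
        have := W.rk
        omega)
      have hbig := all_big hClp fp fd hs
      have h4 := H56.one_lt_prod hMm Finset.univ _ hx l (Finset.mem_univ l) (hbig l)
      rw [fd.v00, (hMm ℤ).1 _ _ fd.c0 (Finset.prod_ne_zero_iff.mpr fun i _ => hx i)] at h3
      have h5 := (hMm ℤ).2.1 c
      nlinarith
    · exact h1
  have hb0 : 0 < b := hr0.loc.a0.trans hab
  have hQ0 : (q + X * f).coeff 0 = 1 := by
    rw [coeff_add, hr0.loc.q0, coeff_X_mul_zero, add_zero]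
  have hP : ClassP b⁻¹ (D.coeff 0 + ((ld e0 1 : (RO ℤ)ˣ) : RO ℤ) * D.coeff S0) := by
    rw [hV0]
    exact classP_of hb0 hb1 hQ0 hb
  obtain ⟨l⟩ := fac_ex fd (by
    have := W.rk
    omega)
  have hbig := all_big hClp fp fd hs
  have hx : ∀ i, (G i).coeff 0 ≠ 0 := fun i => (fd.st i).1
  have hP' := hP
  rw [fd.v00] at hP'
  obtain ⟨hl, hPG, hcV⟩ := one_fac hE1 hMV hMm fd.c0 hx hP' hbig l
  obtain ⟨hcl, hdd⟩ := dd_full hRk hClp hI1 fp fd hdr hl
  -- the mutual ray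
  have hcl' : cl (co phi i0) S0 h0 ((kap⁻¹ : (RO ℤ)ˣ) * -e0) D = cst c * G l := by
    rw [negT_ld]
    exact hcl
  have hVne : D.coeff 0 + (((kap⁻¹ : (RO ℤ)ˣ) * -e0 : (RO ℤ)ˣ) : RO ℤ) * D.coeff S0 ≠ 0 := by
    rw [negT_ld]
    have h1 := V0_ne hr0 (k := 1) le_rfl
    exact_mod_cast h1
  obtain ⟨hray, hco0, hco1, -, -, hIm, -⟩ := hMug ℤ P L phi D S0 S1 (-e0) (-e1) kap⁻¹ i0 h0 T c
    (G l) fp hK.mt.r0 hK.mt.r1 hK.mt.m0 hK.mt.m1 hT kapi_ne hVne hcl'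
  rw [negT_ld, hV0] at hco0
  have hco1' : (e1 : RO ℤ) * (c * (G l).coeff T) = toLaurent ((1 + X) * f) := by
    rw [Units.val_neg, Units.val_neg, neg_mul, neg_mul, hr0.DS, kapi_val, sub_neg_eq_add,
      mul_neg, neg_inj] at hco1
    rw [hco1, map_mul, map_add, map_one, toLaurent_X]
  -- the content is a unit
  have hcz : ∀ z : Circle, evR z c ≠ 0 := by
    intro z hz
    have h1 := congrArg (evR z) hco0
    rw [map_mul, hz, zero_mul, evR_poly] at h1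
    have h2 := congrArg (evR z) hco1'
    rw [map_mul, map_mul, hz, zero_mul, mul_zero, evR_poly] at h2
    simp only [map_add, map_mul, map_one, aeval_X] at h1 h2
    rcases mul_eq_zero.mp h2.symm with h3 | h3
    · have hz1 : (z : ℂ) = -1 := by linear_combination h3
      rw [hz1] at h1
      have h4 := congrArg (fun Q => (aeval (-1 : ℂ) Q : ℂ)) hK.eq
      simp only [map_sub, map_mul, aeval_X] at h4
      exact hK.ez (-1) (by simp) (by linear_combination h4 - h1)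
    · rw [h3, mul_zero, add_zero] at h1
      exact q_ne hr0.loc z (Circle.norm_coe z) h1.symm
  have hcu : IsUnit c := hM1 ℤ c fd.c0 ((hMV ℤ).1 _ _ hcV).2 hcz
  have hVB : vB phi D S0 e0 i0 h0 = cst c * G l := hcl
  have hddV : DD (phO phi S0 i0) (vB phi D S0 e0 i0 h0) := by
    rw [hVB]
    exact H78.dd_cst hcu hcz hdd
  have hrk : Module.finrank ℤ (Ker (co phi i0)) = 2 * j := by
    have h1 := finrank_ker hRk h0
    have := W.rk
    omega
  have hrayV : Ray (vB phi D S0 e0 i0 h0) T := by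
    rw [hVB]
    exact ray_cst fd.c0 hray
  obtain ⟨hz, -, -, -, -, hrr⟩ := hE2 ℤ P (Ker (co phi i0)) (phO phi S0 i0)
    (vB phi D S0 e0 i0 h0) hddV (by rw [hrk]; omega)
  obtain ⟨hle, -⟩ := hrr T hrayV
  have hv0 : (vB phi D S0 e0 i0 h0).coeff 0 = toLaurent (q + X * f) := by
    rw [hVB, H78.cstm, hco0]
  have hvT : (e1 : RO ℤ) * (vB phi D S0 e0 i0 h0).coeff T = toLaurent ((1 + X) * f) := by
    rw [hVB, H78.cstm, hco1']
  have hcirc : ∀ z : ℂ, ‖z‖ = 1 → aeval z (q + X * f) ≠ 0 := by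
    intro z hz1 h1
    obtain ⟨w, rfl⟩ := circle_of z hz1
    apply hz w
    rw [hv0, evR_poly, h1]
  have hloc : Loc (q + X * f) ((1 + X) * f) b := by
    refine ⟨hb0, hb1, hQ0, ?_, fac_of (by rw [hQ0]; norm_num) hb hcirc⟩
    intro z hz1
    obtain ⟨w, rfl⟩ := circle_of z hz1
    have h1 := hle w
    have h2 : ‖evR w ((e1 : RO ℤ) * (vB phi D S0 e0 i0 h0).coeff T)‖ =
        ‖evR w (toLaurent ((1 + X) * f) : RO ℤ)‖ := by rw [hvT]
    rw [map_mul, norm_mul, H36.norm_evR_unit w _ e1.isUnit, one_mul, evR_poly] at h2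
    rw [h2, hv0, evR_poly] at h1
    exact h1
  have hrn : RN (vB phi D S0 e0 i0 h0) T (q + X * f) ((1 + X) * f) e1 b := by
    refine ⟨hloc, ⟨-1, by simp, ?_⟩, ?_, hv0, hvT⟩
    · intro h1
      have h2 : (aeval (-1 : ℂ) ((1 + X) * f) : ℂ) = 0 := by simp
      rw [h2, norm_zero] at h1
      exact hcirc (-1) (by simp) (norm_eq_zero.mp h1.symm)
    · rw [mul_coeff_zero, coeff_add, coeff_one_zero, coeff_X_zero, add_zero, one_mul, hf0]
  -- the bound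
  have hcls : ClassP b⁻¹ ((vB phi D S0 e0 i0 h0).coeff 0) := by
    rw [hv0]
    exact classP_of hb0 hb1 hQ0 hb
  have hth := (W.ih (2 * j) (by omega) b⁻¹ P (Ker (co phi i0)) (phO phi S0 i0)
    (vB phi D S0 e0 i0 h0) hddV hcls hrk).1 (even_two_mul j)
  refine ⟨b, hK, hn, hT, hddV, hrk, hrayV, hrn, hIm, hab, ?_⟩
  rw [one_div, inv_inv] at hth
  push_cast at hth
  linarith

end Pool.Agent.B5.O1H42
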